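import Mathlib
import Pool.Agent.W667.BN.A5

set_option autoImplicit false

/-!
The small dimension, the global dimension and the bidimension of the Banach algebra of continuous
functions on the Stone-Čech compactification of the natural numbers are infinite; the homological
dimension of the one-dimensional module at a point is zero or infinite.
-/

namespace Pool.Agent.Results.MP_4953ed_an.SmallInfinite

open Pool.Agent.Helper832.CD Pool.Agent.H203R3.BH Pool.Agent.W667.BN

/-- `ptMod p` is the module `ℂ` with the action `a z = a(p) z`. -/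
theorem result :
    (∀ n : ℕ, (ptMod (stoneCechUnit n : StoneCech ℕ)).dh = 0) ∧
    (∀ p : StoneCech ℕ, p ∉ Set.range (stoneCechUnit : ℕ → StoneCech ℕ) → (ptMod p).dh = ⊤) ∧
    ds C(StoneCech ℕ, ℂ) = ⊤ ∧ dg C(StoneCech ℕ, ℂ) = ⊤ ∧ db C(StoneCech ℕ, ℂ) = ⊤ :=
  ⟨ptMod_dh_zero, ptMod_dh, ds_beta, dg_beta, db_beta⟩

end Pool.Agent.Results.MP_4953ed_an.SmallInfinite
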